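import Pool.Agent.Y198.DC.Stm2

set_option autoImplicit false

universe u

open CategoryTheory IsLocalRing TensorProduct Pointwise

namespace Pool.Agent.Y697.DC

theorem smul_lt (S : Type u) [CommRing S] [IsLocalRing S] (M : Type u) [AddCommGroup M]
    [Module S M] [Module.Finite S M] [Nontrivial M] :
    maximalIdeal S • (⊤ : Submodule S M) < ⊤ := by
  rw [lt_top_iff_ne_top]
  intro h
  have h1 := Submodule.eq_bot_of_le_smul_of_le_jacobson_bot (maximalIdeal S)
    (⊤ : Submodule S M) Module.Finite.fg_top h.ge (IsLocalRing.maximalIdeal_le_jacobson _)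
  exact top_ne_bot h1

theorem smul_top_eq (S : Type u) [CommRing S] (f : S) :
    (f • (⊤ : Submodule S S)) = Ideal.span {f} := by
  ext z
  rw [Submodule.mem_smul_pointwise_iff_exists, Ideal.mem_span_singleton']
  constructor
  · rintro ⟨b, _, hb⟩
    exact ⟨b, by rw [← hb, smul_eq_mul, mul_comm]⟩
  · rintro ⟨b, hb⟩
    exact ⟨b, Submodule.mem_top, by rw [← hb, smul_eq_mul, mul_comm]⟩

theorem t : Pool.Agent.Y198.DC.S_QD := by
  intro R S _ _ _ _ _ f hfm hf0 e d rs hlen hmem hreg
  have hfr : IsSMulRegular S f := by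
    intro a b hab
    have h1 : a * f = b * f := by
      have h2 : f • a = f • b := hab
      rw [smul_eq_mul, smul_eq_mul] at h2
      rw [mul_comm a, mul_comm b, h2]
    exact mul_cancel_right_mem_nonZeroDivisors hf0 |>.1 h1
  have hsupp : Module.support S (S ⧸ maximalIdeal S) =
      PrimeSpectrum.zeroLocus (maximalIdeal S : Set S) := by
    rw [Module.support_eq_zeroLocus, Ideal.annihilator_quotient]
  have hS : ∀ i < d + 1, Subsingleton (Abelian.Ext (ModuleCat.of S (S ⧸ maximalIdeal S))
      (ModuleCat.of S S) i) := by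
    intro i hi
    exact ModuleCat.subsingleton_ext_of_exists_isRegular (maximalIdeal S)
      (ModuleCat.of S (S ⧸ maximalIdeal S)) hsupp.le (ModuleCat.of S S) (smul_lt S S) rs hmem
      hreg i (by omega)
  have hQ : ∀ i < d, Subsingleton (Abelian.Ext (ModuleCat.of S (S ⧸ maximalIdeal S))
      (ModuleCat.of S (QuotSMulTop f S)) i) := by
    intro i hi
    have zero1 := AddCommGrpCat.isZero_of_iff_subsingleton.mpr (hS i (by omega))
    have zero2 := AddCommGrpCat.isZero_of_iff_subsingleton.mpr (hS (i + 1) (by omega))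
    have hfr' : IsSMulRegular (ModuleCat.of S S) f := hfr
    exact AddCommGrpCat.subsingleton_of_isZero <| ShortComplex.Exact.isZero_of_both_zeros
      ((Abelian.Ext.covariant_sequence_exact₃' (ModuleCat.of S (S ⧸ maximalIdeal S))
        hfr'.smulShortComplex_shortExact) i (i + 1) rfl)
      (zero1.eq_zero_of_src _) (zero2.eq_zero_of_tgt _)
  have hnt : Nontrivial (QuotSMulTop f S) := by
    rw [Submodule.Quotient.nontrivial_iff, smul_top_eq]
    intro h
    have h1 : Ideal.span {f} ≤ maximalIdeal S := by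
      rw [Ideal.span_singleton_le_iff_mem]
      exact hfm
    exact (maximalIdeal.isMaximal S).ne_top (top_le_iff.1 (h ▸ h1))
  obtain ⟨us, hul, hum, hureg⟩ := ModuleCat.exists_isRegular_of_exists_subsingleton_ext
    (maximalIdeal S) d (ModuleCat.of S (QuotSMulTop f S)) (smul_lt S (QuotSMulTop f S))
    (ModuleCat.of S (S ⧸ maximalIdeal S)) hsupp hQ
  let p : S →+* R := e.symm.toRingHom.comp (Ideal.Quotient.mk (Ideal.span {f}))
  let E : QuotSMulTop f S ≃+ R :=
    (Submodule.quotEquivOfEq (f • (⊤ : Submodule S S)) (Ideal.span {f})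
      (smul_top_eq S f)).toAddEquiv.trans e.symm.toAddEquiv
  have hE : ∀ (s : S) (x : QuotSMulTop f S), E (s • x) = p s • E x := by
    intro s x
    obtain ⟨y, rfl⟩ := Submodule.Quotient.mk_surjective _ x
    change e.symm (Ideal.Quotient.mk (Ideal.span {f}) (s * y)) =
      e.symm (Ideal.Quotient.mk (Ideal.span {f}) s) *
        e.symm (Ideal.Quotient.mk (Ideal.span {f}) y)
    rw [map_mul, map_mul]
  refine ⟨us.map p, by rw [List.length_map, hul], ?_, ?_⟩
  · intro r hr
    rw [List.mem_map] at hr
    obtain ⟨s, hs, rfl⟩ := hr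
    rw [IsLocalRing.mem_maximalIdeal, mem_nonunits_iff]
    intro hu
    obtain ⟨c, hc⟩ := hu.exists_right_inv
    obtain ⟨t, ht⟩ : ∃ t : S, p t = c := by
      obtain ⟨t, ht⟩ := Ideal.Quotient.mk_surjective (e c)
      refine ⟨t, ?_⟩
      change e.symm (Ideal.Quotient.mk (Ideal.span {f}) t) = c
      rw [ht, RingEquiv.symm_apply_apply]
    have h1 : Ideal.Quotient.mk (Ideal.span {f}) (s * t - 1) = 0 := by
      have h2 : e.symm (Ideal.Quotient.mk (Ideal.span {f}) (s * t - 1)) = 0 := by
        change p (s * t - 1) = 0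
        rw [map_sub, map_mul, ht, hc, map_one, sub_self]
      exact (map_eq_zero_iff e.symm e.symm.injective).1 h2
    rw [Ideal.Quotient.eq_zero_iff_mem] at h1
    have h3 : Ideal.span {f} ≤ maximalIdeal S := by
      rw [Ideal.span_singleton_le_iff_mem]
      exact hfm
    have h4 : (1 : S) ∈ maximalIdeal S := by
      have h5 := (maximalIdeal S).sub_mem ((maximalIdeal S).mul_mem_right t (hum s hs)) (h3 h1)
      rwa [sub_sub_cancel] at h5
    exact (maximalIdeal.isMaximal S).ne_top ((Ideal.eq_top_iff_one _).2 h4)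
  · refine (AddEquiv.isRegular_congr (e := E) ?_).1 hureg
    exact List.forall₂_map_right_iff.mpr <| List.forall₂_same.mpr fun s _ x => hE s x

end Pool.Agent.Y697.DC
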